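import Mathlib

/-! The convex hull of a compact set in a finite-dimensional space is compact. -/

set_option autoImplicit false

namespace Pool.Agent.K35c.CD

open Set

theorem isCompact_convexHull {m : ℕ} {K : Set (Fin m → ℝ)} (hK : IsCompact K) :
    IsCompact (convexHull ℝ K) := by
  rcases K.eq_empty_or_nonempty with rfl | ⟨z0, hz0⟩
  · simp
  set T : Set ((Fin (m + 1) → ℝ) × (Fin (m + 1) → (Fin m → ℝ))) :=
    stdSimplex ℝ (Fin (m + 1)) ×ˢ Set.pi Set.univ (fun _ => K) with hT
  have hTc : IsCompact T := (isCompact_stdSimplex ℝ (Fin (m + 1))).prod (isCompact_univ_pi fun _ => hK)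
  set F : ((Fin (m + 1) → ℝ) × (Fin (m + 1) → (Fin m → ℝ))) → (Fin m → ℝ) :=
    fun p => ∑ i, p.1 i • p.2 i with hF
  have hFc : Continuous F := by
    rw [hF]
    fun_prop
  have : convexHull ℝ K = F '' T := by
    apply Subset.antisymm
    · intro x hx
      obtain ⟨ι, hι, z, w, hz, hai, hw, hw1, hx⟩ := eq_pos_convex_span_of_mem_convexHull hx
      have hcard : Fintype.card ι ≤ m + 1 := by
        refine hai.card_le_finrank_succ.trans ?_
        have := Submodule.finrank_le (vectorSpan ℝ (Set.range z))
        rw [Module.finrank_fin_fun] at this
        omega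
      obtain ⟨g⟩ : Nonempty (ι ↪ Fin (m + 1)) := by
        apply Function.Embedding.nonempty_of_card_le
        simpa using hcard
      classical
      refine ⟨(fun j => if h : ∃ i, g i = j then w h.choose else 0,
        fun j => if h : ∃ i, g i = j then z h.choose else z0), ⟨⟨?_, ?_⟩, ?_⟩, ?_⟩
      · intro j
        show (0 : ℝ) ≤ if h : ∃ i, g i = j then w h.choose else 0
        split_ifs with h
        · exact (hw _).le
        · exact le_rfl
      · show ∑ j, (if h : ∃ i, g i = j then w h.choose else 0) = 1
        rw [← hw1]
        symm
        apply Finset.sum_of_injOn g g.injective.injOn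
        · intro i _
          simp
        · intro j _ hj
          rw [dif_neg]
          rintro ⟨i, hi⟩
          exact hj ⟨i, by simp, hi⟩
        · intro i _
          have h : ∃ i', g i' = g i := ⟨i, rfl⟩
          rw [dif_pos h]
          congr 1
          exact (g.injective h.choose_spec).symm
      · intro j _
        show (if h : ∃ i, g i = j then z h.choose else z0) ∈ K
        split_ifs with h
        · exact hz ⟨_, rfl⟩
        · exact hz0
      · show ∑ j, (if h : ∃ i, g i = j then w h.choose else 0) •
          (if h : ∃ i, g i = j then z h.choose else z0) = x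
        rw [← hx]
        symm
        apply Finset.sum_of_injOn g g.injective.injOn
        · intro i _
          simp
        · intro j _ hj
          rw [dif_neg, zero_smul]
          rintro ⟨i, hi⟩
          exact hj ⟨i, by simp, hi⟩
        · intro i _
          have h : ∃ i', g i' = g i := ⟨i, rfl⟩
          rw [dif_pos h, dif_pos h]
          have := (g.injective h.choose_spec).symm
          rw [← this]
    · rintro x ⟨⟨w, z⟩, ⟨⟨h0, h1⟩, hz⟩, rfl⟩
      exact (convex_convexHull ℝ K).sum_mem (fun i _ => h0 i) h1
        (fun i _ => subset_convexHull ℝ K (hz i (mem_univ i)))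
  rw [this]
  exact hTc.image hFc

end Pool.Agent.K35c.CD
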