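import Pool.Agent.K35c.CD.Main

/-!
NOT a hand-in (withdrawn, see departures/helper35.md): the positive answer to MP_913d4e_co Q1 (the convex
hull of the clique density vectors).  It is the dual form of a theorem of Bollobas (1976), quoted by Lovasz
(Large networks and graph limits, chapter 16): a linear inequality between clique densities holds for all
graphs if it holds for all complete graphs.
-/

set_option autoImplicit false
open Classical

namespace Pool.Agent.K35c.CD.Frozen

theorem result :
    ∀ (m : ℕ) (e : Fin m → ℕ), (∀ i, 0 < e i) → StrictMono e →
      (⋂ n : ℕ, convexHull ℝ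
          { x : Fin m → ℝ | ∃ G : SimpleGraph (Fin (n + ∑ i, e i)),
              x = fun i => ((G.cliqueFinset (e i)).card : ℝ) /
                ((Nat.choose (n + ∑ i, e i) (e i) : ℕ) : ℝ) })
        = convexHull ℝ (insert (1 : Fin m → ℝ)
            (Set.range fun k : ℕ => fun i : Fin m =>
              ∏ j ∈ Finset.Ico 1 (e i), (1 - (j : ℝ) / ((k : ℝ) + 1)))) := by
  intro m e he _
  exact Pool.Agent.K35c.CD.main e he

end Pool.Agent.K35c.CD.Frozen
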