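import Mathlib

/-! Weighted clique polynomials: every linear combination of clique densities is maximised at a
uniform weighting of a clique. -/

set_option autoImplicit false

namespace Pool.Agent.K35c.CD

open Finset Classical

set_option linter.unusedSectionVars false

variable {V : Type*} [Fintype V]

/-- the cliques of a graph -/
noncomputable def cl (G : SimpleGraph V) : Finset (Finset V) :=
  univ.filter (fun Q : Finset V => G.IsClique (Q : Set V))

theorem mem_clq {G : SimpleGraph V} {Q : Finset V} : Q ∈ cl G ↔ G.IsClique (Q : Set V) := by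
  unfold cl
  simp

/-- the weighted clique polynomial -/
noncomputable def Phi (G : SimpleGraph V) (w : ℕ → ℝ) (x : V → ℝ) : ℝ :=
  ∑ Q ∈ cl G, w Q.card * ∏ v ∈ Q, x v

/-- move weight between `u` and `v` -/
noncomputable def mv (x : V → ℝ) (u v : V) (t : ℝ) : V → ℝ :=
  Function.update (Function.update x u t) v (x u + x v - t)

theorem mv_self (x : V → ℝ) (u v : V) (huv : u ≠ v) : mv x u v (x u) = x := by
  unfold mv
  ext z
  by_cases h1 : z = v
  · subst h1; simp
  · rw [Function.update_of_ne h1]
    by_cases h2 : z = u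
    · subst h2; simp
    · rw [Function.update_of_ne h2]

theorem prod_mv (x : V → ℝ) (u v : V) (huv : u ≠ v) (t : ℝ) (Q : Finset V) :
    ∏ z ∈ Q, mv x u v t z = (if u ∈ Q then t else 1) * (if v ∈ Q then x u + x v - t else 1) *
      ∏ z ∈ Q \ {u, v}, x z := by
  have h1 : ∏ z ∈ Q \ {u, v}, x z = ∏ z ∈ Q \ {u, v}, mv x u v t z := by
    apply prod_congr rfl
    intro z hz
    rw [mem_sdiff, mem_insert, mem_singleton, not_or] at hz
    unfold mv
    rw [Function.update_of_ne hz.2.2, Function.update_of_ne hz.2.1]
  have h2 : ∏ z ∈ Q, mv x u v t z = (∏ z ∈ Q ∩ {u, v}, mv x u v t z) *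
      ∏ z ∈ Q \ {u, v}, mv x u v t z := (prod_inter_mul_prod_sdiff Q {u, v} _).symm
  rw [h2, h1]
  congr 1
  have hu : mv x u v t u = t := by
    unfold mv
    rw [Function.update_of_ne huv, Function.update_self]
  have hv : mv x u v t v = x u + x v - t := by
    unfold mv
    rw [Function.update_self]
  by_cases a : u ∈ Q <;> by_cases b : v ∈ Q
  · have : Q ∩ {u, v} = {u, v} := by
      ext z
      simp only [mem_inter, mem_insert, mem_singleton]
      constructor
      · exact fun h => h.2
      · rintro (rfl | rfl)
        · exact ⟨a, Or.inl rfl⟩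
        · exact ⟨b, Or.inr rfl⟩
    rw [this, prod_pair huv, hu, hv, if_pos a, if_pos b]
  · have : Q ∩ {u, v} = {u} := by
      ext z
      simp only [mem_inter, mem_insert, mem_singleton]
      constructor
      · rintro ⟨h1, h2 | h2⟩
        · exact h2
        · exact absurd (h2 ▸ h1) b
      · rintro rfl
        exact ⟨a, Or.inl rfl⟩
    rw [this, prod_singleton, hu, if_pos a, if_neg b, mul_one]
  · have : Q ∩ {u, v} = {v} := by
      ext z
      simp only [mem_inter, mem_insert, mem_singleton]
      constructor
      · rintro ⟨h1, h2 | h2⟩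
        · exact absurd (h2 ▸ h1) a
        · exact h2
      · rintro rfl
        exact ⟨b, Or.inr rfl⟩
    rw [this, prod_singleton, hv, if_neg a, if_pos b, one_mul]
  · have : Q ∩ {u, v} = ∅ := by
      ext z
      simp only [mem_inter, mem_insert, mem_singleton, notMem_empty, iff_false]
      rintro ⟨h1, h2 | h2⟩
      · exact a (h2 ▸ h1)
      · exact b (h2 ▸ h1)
    rw [this, prod_empty, if_neg a, if_neg b, mul_one]

/-- along a move `Phi` is quadratic, and affine if `u` and `v` are not adjacent -/
theorem phi_mv (G : SimpleGraph V) (w : ℕ → ℝ) (x : V → ℝ) (u v : V) (huv : u ≠ v) :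
    ∃ A B D : ℝ, (∀ t, Phi G w (mv x u v t) = A + B * t + D * t ^ 2) ∧ (¬ G.Adj u v → D = 0) := by
  set s := x u + x v with hs
  let R : Finset V → ℝ := fun Q => w Q.card * ∏ z ∈ Q \ {u, v}, x z
  let a : Finset V → ℝ := fun Q => if u ∈ Q then 0 else if v ∈ Q then R Q * s else R Q
  let b : Finset V → ℝ := fun Q => if u ∈ Q then (if v ∈ Q then R Q * s else R Q) else
    (if v ∈ Q then - R Q else 0)
  let d : Finset V → ℝ := fun Q => if u ∈ Q ∧ v ∈ Q then - R Q else 0
  set F := cl G with hF
  refine ⟨∑ Q ∈ F, a Q, ∑ Q ∈ F, b Q, ∑ Q ∈ F, d Q, ?_, ?_⟩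
  · intro t
    unfold Phi
    rw [← hF, sum_mul, sum_mul, ← sum_add_distrib, ← sum_add_distrib]
    apply sum_congr rfl
    intro Q _
    rw [prod_mv x u v huv, ← hs]
    simp only [a, b, d, R]
    by_cases h1 : u ∈ Q <;> by_cases h2 : v ∈ Q <;> simp [h1, h2] <;> ring
  · intro hadj
    apply sum_eq_zero
    intro Q hQ
    rw [hF, mem_clq] at hQ
    simp only [d]
    rw [if_neg]
    rintro ⟨h1, h2⟩
    exact hadj (hQ h1 h2 huv)

theorem mv_mem (x : V → ℝ) (hx : x ∈ stdSimplex ℝ V) (u v : V) (huv : u ≠ v) (t : ℝ) (h0 : 0 ≤ t)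
    (h1 : t ≤ x u + x v) : mv x u v t ∈ stdSimplex ℝ V := by
  constructor
  · intro z
    unfold mv
    by_cases h2 : z = v
    · subst h2; rw [Function.update_self]; linarith
    · rw [Function.update_of_ne h2]
      by_cases h3 : z = u
      · subst h3; rw [Function.update_self]; exact h0
      · rw [Function.update_of_ne h3]; exact hx.1 z
  · rw [← hx.2]
    have e1 := sum_sdiff (subset_univ ({u, v} : Finset V)) (f := mv x u v t)
    have e2 := sum_sdiff (subset_univ ({u, v} : Finset V)) (f := x)
    rw [← e1, ← e2, sum_pair huv, sum_pair huv]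
    have hu : mv x u v t u = t := by
      unfold mv
      rw [Function.update_of_ne huv, Function.update_self]
    have hv : mv x u v t v = x u + x v - t := by
      unfold mv
      rw [Function.update_self]
    rw [hu, hv]
    have : ∑ z ∈ univ \ {u, v}, mv x u v t z = ∑ z ∈ univ \ {u, v}, x z := by
      apply sum_congr rfl
      intro z hz
      rw [mem_sdiff, mem_insert, mem_singleton, not_or] at hz
      unfold mv
      rw [Function.update_of_ne hz.2.2, Function.update_of_ne hz.2.1]
    rw [this]
    ring

/-- the support -/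
noncomputable def supp (x : V → ℝ) : Finset V := univ.filter (fun v => x v ≠ 0)

theorem supp_mv_zero (x : V → ℝ) (u v : V) (huv : u ≠ v) (hu : u ∈ supp x) (hv : v ∈ supp x) :
    (supp (mv x u v 0)).card < (supp x).card := by
  apply card_lt_card
  rw [ssubset_iff_of_subset]
  · refine ⟨u, hu, ?_⟩
    unfold supp mv
    rw [mem_filter, Function.update_of_ne huv, Function.update_self]
    simp
  · intro z hz
    by_cases h1 : z = v
    · rw [h1]; exact hv
    · by_cases h2 : z = u
      · rw [h2]; exact hu
      · unfold supp mv at hz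
        rw [mem_filter, Function.update_of_ne h1, Function.update_of_ne h2] at hz
        unfold supp
        rw [mem_filter]
        exact hz

/-- on weightings supported by a clique `S` the polynomial does not depend on the graph -/
theorem phi_clique (G : SimpleGraph V) (w : ℕ → ℝ) (S : Finset V) (hS : G.IsClique (S : Set V))
    (x : V → ℝ) (hx : ∀ z, z ∉ S → x z = 0) :
    Phi G w x = ∑ Q ∈ S.powerset, w Q.card * ∏ v ∈ Q, x v := by
  unfold Phi
  symm
  apply sum_subset
  · intro Q hQ
    rw [mem_clq]
    rw [mem_powerset] at hQ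
    exact hS.subset (by exact_mod_cast hQ)
  · intro Q _ hQ
    rw [mem_powerset, not_subset] at hQ
    obtain ⟨z, hz, hzS⟩ := hQ
    rw [prod_eq_zero hz (hx z hzS), mul_zero]

/-- Every linear functional of the weighted clique polynomials is bounded by its value at a uniform
weighting of a clique. -/
theorem phi_le (G : SimpleGraph V) (w : ℕ → ℝ) (x : V → ℝ) (hx : x ∈ stdSimplex ℝ V) :
    ∃ k : ℕ, 1 ≤ k ∧ Phi G w x ≤ ∑ j ∈ range (k + 1), (k.choose j : ℝ) * (w j * (1 / (k : ℝ)) ^ j) := by
  have hcont : Continuous (Phi G w) := by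
    unfold Phi
    fun_prop
  obtain ⟨y, hy, hymax⟩ := (isCompact_stdSimplex ℝ V).exists_isMaxOn ⟨x, hx⟩ hcont.continuousOn
  -- a maximiser with the smallest support
  have hex : ∃ n : ℕ, ∃ z ∈ stdSimplex ℝ V, Phi G w z = Phi G w y ∧ (supp z).card = n :=
    ⟨_, y, hy, rfl, rfl⟩
  obtain ⟨z, hz, hzy, hzn⟩ := Nat.find_spec hex
  have hmin : ∀ z' ∈ stdSimplex ℝ V, Phi G w z' = Phi G w y → (supp z).card ≤ (supp z').card := by
    intro z' hz' h'
    rw [hzn]
    exact Nat.find_min' hex ⟨z', hz', h', rfl⟩
  have hmax : ∀ z' ∈ stdSimplex ℝ V, Phi G w z' ≤ Phi G w z := by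
    intro z' hz'
    rw [hzy]
    exact hymax hz'
  have hle : Phi G w x ≤ Phi G w z := hmax x hx
  set S := supp z with hS
  have hpos : ∀ u ∈ S, 0 < z u := by
    intro u hu
    rw [hS] at hu
    unfold supp at hu
    rw [mem_filter] at hu
    exact lt_of_le_of_ne (hz.1 u) (Ne.symm hu.2)
  have hzero : ∀ u, u ∉ S → z u = 0 := by
    intro u hu
    rw [hS] at hu
    unfold supp at hu
    rw [mem_filter, not_and, not_not] at hu
    exact hu (mem_univ _)
  -- key facts for pairs
  have hpair : ∀ u ∈ S, ∀ v ∈ S, u ≠ v → ∃ A B D : ℝ,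
      (∀ t, Phi G w (mv z u v t) = A + B * t + D * t ^ 2) ∧ (¬ G.Adj u v → D = 0) ∧
      B + 2 * D * z u = 0 ∧ D < 0 := by
    intro u hu v hv huv
    obtain ⟨A, B, D, h1, h2⟩ := phi_mv G w z u v huv
    refine ⟨A, B, D, h1, h2, ?_⟩
    have hu0 := hpos u hu
    have hv0 := hpos v hv
    have hval : Phi G w z = A + B * z u + D * z u ^ 2 := by
      rw [← h1, mv_self z u v huv]
    have hb : ∀ t, 0 ≤ t → t ≤ z u + z v → A + B * t + D * t ^ 2 ≤ A + B * z u + D * z u ^ 2 := by
      intro t ht0 ht1
      rw [← h1, ← hval]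
      exact hmax _ (mv_mem z hz u v huv t ht0 ht1)
    -- the derivative vanishes
    have hder : B + 2 * D * z u = 0 := by
      by_contra hne
      set q := B + 2 * D * z u with hq
      -- move by δ in the direction of the sign of q
      have hstep : ∀ δ : ℝ, -z u ≤ δ → δ ≤ z v → q * δ + D * δ ^ 2 ≤ 0 := by
        intro δ hd1 hd2
        have := hb (z u + δ) (by linarith) (by linarith)
        rw [hq]
        nlinarith
      rcases lt_or_gt_of_ne hne with hneg | hpos'
      · -- q < 0, take δ = - ε
        obtain ⟨ε, hε0, hε1, hε2⟩ : ∃ ε : ℝ, 0 < ε ∧ ε ≤ z u ∧ ε * |D| < -q := by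
          refine ⟨min (z u) (-q / (2 * (|D| + 1))), ?_, min_le_left _ _, ?_⟩
          · apply lt_min hu0
            apply div_pos (by linarith)
            positivity
          · have hD : (0 : ℝ) < 2 * (|D| + 1) := by positivity
            have h3 : min (z u) (-q / (2 * (|D| + 1))) ≤ -q / (2 * (|D| + 1)) := min_le_right _ _
            have h4 : min (z u) (-q / (2 * (|D| + 1))) * |D| ≤ -q / (2 * (|D| + 1)) * |D| :=
              mul_le_mul_of_nonneg_right h3 (abs_nonneg _)
            refine lt_of_le_of_lt h4 ?_
            rw [div_mul_eq_mul_div, div_lt_iff₀ hD]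
            have := abs_nonneg D
            nlinarith
        have h5 := hstep (-ε) (by linarith) (by linarith)
        have h6 : -|D| ≤ D := neg_abs_le D
        nlinarith [mul_pos hε0 hε0]
      · obtain ⟨ε, hε0, hε1, hε2⟩ : ∃ ε : ℝ, 0 < ε ∧ ε ≤ z v ∧ ε * |D| < q := by
          refine ⟨min (z v) (q / (2 * (|D| + 1))), ?_, min_le_left _ _, ?_⟩
          · apply lt_min hv0
            apply div_pos (by linarith)
            positivity
          · have hD : (0 : ℝ) < 2 * (|D| + 1) := by positivity
            have h3 : min (z v) (q / (2 * (|D| + 1))) ≤ q / (2 * (|D| + 1)) := min_le_right _ _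
            have h4 : min (z v) (q / (2 * (|D| + 1))) * |D| ≤ q / (2 * (|D| + 1)) * |D| :=
              mul_le_mul_of_nonneg_right h3 (abs_nonneg _)
            refine lt_of_le_of_lt h4 ?_
            rw [div_mul_eq_mul_div, div_lt_iff₀ hD]
            have := abs_nonneg D
            nlinarith
        have h5 := hstep ε (by linarith) (by linarith)
        have h6 : -|D| ≤ D := neg_abs_le D
        nlinarith [mul_pos hε0 hε0]
    refine ⟨hder, ?_⟩
    by_contra hD
    push Not at hD
    -- moving all the weight to v keeps the maximum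
    have h0 := hb 0 le_rfl (by linarith)
    have h00 : Phi G w (mv z u v 0) = Phi G w y := by
      rw [← hzy]
      apply le_antisymm
      · exact hmax _ (mv_mem z hz u v huv 0 le_rfl (by linarith))
      · rw [h1, hval]
        nlinarith [mul_pos hu0 hu0, mul_nonneg hD (mul_pos hu0 hu0).le]
    have h01 := hmin _ (mv_mem z hz u v huv 0 le_rfl (by linarith)) h00
    have h02 := supp_mv_zero z u v huv hu hv
    rw [← hS] at h02
    omega
  have hclique : G.IsClique (S : Set V) := by
    intro u hu v hv huv
    obtain ⟨A, B, D, h1, h2, h3, h4⟩ := hpair u hu v hv huv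
    by_contra hadj
    rw [h2 hadj] at h4
    exact lt_irrefl _ h4
  have heq : ∀ u ∈ S, ∀ v ∈ S, z u = z v := by
    intro u hu v hv
    by_cases huv : u = v
    · rw [huv]
    obtain ⟨A, B, D, h1, h2, h3, h4⟩ := hpair u hu v hv huv
    -- symmetry: t ↦ z u + z v - t
    have hsym : Phi G w (mv z u v (z v)) = Phi G w z := by
      have hs1 : ∀ a, mv z u v (z v) a = z (Equiv.swap u v a) := by
        intro a
        unfold mv
        by_cases h5 : a = v
        · subst h5
          rw [Function.update_self, Equiv.swap_apply_right]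
          ring
        · rw [Function.update_of_ne h5]
          by_cases h6 : a = u
          · subst h6
            rw [Function.update_self, Equiv.swap_apply_left]
          · rw [Function.update_of_ne h6, Equiv.swap_apply_of_ne_of_ne h6 h5]
      have hs2 : ∀ a, Equiv.swap u v a ∈ S ↔ a ∈ S := by
        intro a
        by_cases h5 : a = v
        · subst h5
          rw [Equiv.swap_apply_right]
          exact ⟨fun _ => hv, fun _ => hu⟩
        · by_cases h6 : a = u
          · subst h6
            rw [Equiv.swap_apply_left]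
            exact ⟨fun _ => hu, fun _ => hv⟩
          · rw [Equiv.swap_apply_of_ne_of_ne h6 h5]
      rw [phi_clique G w S hclique z hzero, phi_clique G w S hclique]
      · refine sum_bij' (fun Q _ => Q.map (Equiv.swap u v).toEmbedding)
          (fun Q _ => Q.map (Equiv.swap u v).toEmbedding) ?_ ?_ ?_ ?_ ?_
        · intro Q hQ
          rw [mem_powerset] at hQ ⊢
          intro a ha
          rw [mem_map_equiv, Equiv.symm_swap] at ha
          exact (hs2 a).1 (hQ ha)
        · intro Q hQ
          rw [mem_powerset] at hQ ⊢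
          intro a ha
          rw [mem_map_equiv, Equiv.symm_swap] at ha
          exact (hs2 a).1 (hQ ha)
        · intro Q _
          ext a
          simp
        · intro Q _
          ext a
          simp
        · intro Q _
          rw [card_map, prod_map]
          congr 1
          apply prod_congr rfl
          intro a _
          rw [hs1]
          rfl
      · intro a ha
        rw [hs1]
        apply hzero
        rwa [hs2]
    have hval : Phi G w z = A + B * z u + D * z u ^ 2 := by
      rw [← h1, mv_self z u v huv]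
    rw [h1, hval] at hsym
    -- A + B zv + D zv^2 = A + B zu + D zu^2, B = - 2 D zu
    have : D * (z v - z u) ^ 2 = 0 := by
      have e : D * (z v - z u) ^ 2 = (A + B * z v + D * z v ^ 2) - (A + B * z u + D * z u ^ 2) -
          (B + 2 * D * z u) * (z v - z u) := by ring
      rw [e, hsym, h3]
      ring
    rcases mul_eq_zero.1 this with h | h
    · exact absurd h h4.ne
    · have := pow_eq_zero_iff (two_ne_zero) |>.1 h
      linarith
  -- the value
  have hSne : S.Nonempty := by
    rw [nonempty_iff_ne_empty]
    intro h0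
    have : ∑ v, z v = 0 := sum_eq_zero fun v _ => hzero v (by rw [h0]; simp)
    rw [hz.2] at this
    exact one_ne_zero this
  obtain ⟨u0, hu0⟩ := hSne
  have hsum : ∑ v ∈ S, z v = 1 := by
    rw [← hz.2]
    exact sum_subset (subset_univ S) (fun v _ hv => hzero v hv)
  have hconst : ∀ v ∈ S, z v = 1 / (S.card : ℝ) := by
    intro v hv
    have h1 : ∑ a ∈ S, z a = S.card * z v := by
      rw [← nsmul_eq_mul, ← sum_const]
      exact sum_congr rfl fun a ha => heq a ha v hv
    rw [hsum] at h1
    have h2 : (S.card : ℝ) ≠ 0 := by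
      have : 0 < S.card := card_pos.2 ⟨u0, hu0⟩
      positivity
    field_simp
    linarith
  refine ⟨S.card, card_pos.2 ⟨u0, hu0⟩, hle.trans (le_of_eq ?_)⟩
  rw [phi_clique G w S hclique z hzero]
  have h5 : ∀ Q ∈ S.powerset, w Q.card * ∏ v ∈ Q, z v =
      (fun j : ℕ => w j * (1 / (S.card : ℝ)) ^ j) Q.card := by
    intro Q hQ
    rw [mem_powerset] at hQ
    simp only
    rw [prod_congr rfl (fun v hv => hconst v (hQ hv)), prod_const]
  rw [sum_congr rfl h5]
  refine (sum_powerset_apply_card (fun j : ℕ => w j * (1 / (S.card : ℝ)) ^ j)).trans ?_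
  apply sum_congr rfl
  intro j _
  rw [nsmul_eq_mul]

end Pool.Agent.K35c.CD
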