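import Mathlib
import Pool.Agent.K35c.CD.Compact
import Pool.Agent.K35c.CD.Lagr

/-! The region of the clique densities. -/

set_option autoImplicit false

namespace Pool.Agent.K35c.CD

open Finset Classical

theorem desc_real (k e : ℕ) : ((k.descFactorial e : ℕ) : ℝ) = ∏ j ∈ range e, ((k : ℝ) - j) := by
  induction e with
  | zero => simp
  | succ e ih =>
    rw [Nat.descFactorial_succ, Nat.cast_mul, ih, prod_range_succ, mul_comm]
    rcases le_or_gt e k with h | h
    · rw [Nat.cast_sub h]
    · have : ∏ j ∈ range e, ((k : ℝ) - j) = 0 := prod_eq_zero (mem_range.2 h) (by simp)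
      rw [this]
      simp

theorem desc_ratio (k e : ℕ) (hk : 1 ≤ k) (he : 1 ≤ e) :
    ((k.descFactorial e : ℕ) : ℝ) / (k : ℝ) ^ e = ∏ j ∈ Ico 1 e, (1 - (j : ℝ) / (k : ℝ)) := by
  have hk0 : (k : ℝ) ≠ 0 := by positivity
  rw [desc_real]
  have h1 : ∏ j ∈ range e, (1 - (j : ℝ) / (k : ℝ)) = ∏ j ∈ Ico 1 e, (1 - (j : ℝ) / (k : ℝ)) := by
    rw [range_eq_Ico, prod_eq_prod_Ico_succ_bot (by omega : 0 < e)]
    simp
  rw [← h1]
  have h2 : (k : ℝ) ^ e = ∏ _j ∈ range e, (k : ℝ) := by simp
  rw [h2, ← prod_div_distrib]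
  apply prod_congr rfl
  intro j _
  field_simp

/-- the number of maps that are injective on `Q` -/
theorem card_injOn {N K : ℕ} (Q : Finset (Fin N)) :
    ((univ : Finset (Fin N → Fin K)).filter (fun f => Set.InjOn f (Q : Set (Fin N)))).card =
      K.descFactorial Q.card * K ^ (N - Q.card) := by
  have e1 : ((univ : Finset (Fin N → Fin K)).filter
      (fun f => Set.InjOn f (Q : Set (Fin N)))).card =
      ((univ : Finset (({x // x ∈ Q} → Fin K) × ({x // x ∉ Q} → Fin K))).filter
        (fun p => Function.Injective p.1)).card := by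
    apply card_equiv (Equiv.piEquivPiSubtypeProd (fun x => x ∈ Q) (fun _ => Fin K))
    intro f
    simp only [mem_filter, mem_univ, true_and]
    constructor
    · intro h a b hab
      apply Subtype.ext
      exact h a.2 b.2 hab
    · intro h a ha b hb hab
      have := @h ⟨a, ha⟩ ⟨b, hb⟩ hab
      exact congrArg Subtype.val this
  rw [e1]
  have e2 : ((univ : Finset (({x // x ∈ Q} → Fin K) × ({x // x ∉ Q} → Fin K))).filter
        (fun p => Function.Injective p.1)) =
      ((univ : Finset ({x // x ∈ Q} → Fin K)).filter (fun g => Function.Injective g)) ×ˢ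
        (univ : Finset ({x // x ∉ Q} → Fin K)) := by
    ext p
    simp [mem_product]
  rw [e2, card_product]
  congr 1
  · rw [← Fintype.card_subtype]
    have : Fintype.card {g : {x // x ∈ Q} → Fin K // Function.Injective g} =
        Fintype.card ({x // x ∈ Q} ↪ Fin K) :=
      Fintype.card_congr (Equiv.subtypeInjectiveEquivEmbedding _ _)
    rw [this, Fintype.card_embedding_eq]
    simp
  · rw [card_univ, Fintype.card_fun, Fintype.card_fin]
    congr 1
    rw [Fintype.card_subtype_compl, Fintype.card_fin]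
    simp

/-- the complete multipartite graph with classes given by `f` -/
def multi {N K : ℕ} (f : Fin N → Fin K) : SimpleGraph (Fin N) := (⊤ : SimpleGraph (Fin K)).comap f

theorem clique_multi {N K : ℕ} (f : Fin N → Fin K) (Q : Finset (Fin N)) (e : ℕ) :
    Q ∈ (multi f).cliqueFinset e ↔ Q ∈ powersetCard e univ ∧ Set.InjOn f (Q : Set (Fin N)) := by
  rw [SimpleGraph.mem_cliqueFinset_iff, SimpleGraph.isNClique_iff, mem_powersetCard]
  constructor
  · rintro ⟨h1, h2⟩
    refine ⟨⟨subset_univ _, h2⟩, ?_⟩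
    intro a ha b hb hab
    by_contra hne
    have := h1 ha hb hne
    unfold multi at this
    rw [SimpleGraph.comap_adj, SimpleGraph.top_adj] at this
    exact this hab
  · rintro ⟨⟨_, h2⟩, h3⟩
    refine ⟨?_, h2⟩
    intro a ha b hb hne
    unfold multi
    rw [SimpleGraph.comap_adj, SimpleGraph.top_adj]
    exact fun h => hne (h3 ha hb h)

theorem sum_cliques {N K : ℕ} (e : ℕ) :
    ∑ f : Fin N → Fin K, ((multi f).cliqueFinset e).card =
      N.choose e * (K.descFactorial e * K ^ (N - e)) := by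
  have h1 : ∀ f : Fin N → Fin K, ((multi f).cliqueFinset e).card =
      ∑ Q ∈ powersetCard e (univ : Finset (Fin N)), if Set.InjOn f (Q : Set (Fin N)) then 1 else 0 := by
    intro f
    rw [← card_filter]
    congr 1
    ext Q
    rw [clique_multi, mem_filter]
  rw [sum_congr rfl (fun f _ => h1 f), sum_comm]
  have h2 : ∀ Q ∈ powersetCard e (univ : Finset (Fin N)),
      ∑ f : Fin N → Fin K, (if Set.InjOn f (Q : Set (Fin N)) then 1 else 0) =
        K.descFactorial e * K ^ (N - e) := by
    intro Q hQ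
    rw [mem_powersetCard] at hQ
    rw [← card_filter]
    have := card_injOn (N := N) (K := K) Q
    rw [hQ.2] at this
    rw [← this]
  rw [sum_congr rfl h2, sum_const, card_powersetCard, card_univ, Fintype.card_fin, smul_eq_mul]

variable {m : ℕ}

theorem mem_cl {N : ℕ} (G : SimpleGraph (Fin N)) (Q : Finset (Fin N)) (n : ℕ) :
    Q ∈ G.cliqueFinset n ↔ G.IsClique (Q : Set (Fin N)) ∧ Q.card = n := by
  rw [SimpleGraph.mem_cliqueFinset_iff, SimpleGraph.isNClique_iff]

/-- the density vector of a graph -/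
noncomputable def dens (e : Fin m → ℕ) {N : ℕ} (G : SimpleGraph (Fin N)) : Fin m → ℝ :=
  fun i => ((G.cliqueFinset (e i)).card : ℝ) / ((Nat.choose N (e i) : ℕ) : ℝ)

/-- the limit vector of the complete balanced `(k+1)`-partite graph -/
noncomputable def sv (e : Fin m → ℕ) (k : ℕ) : Fin m → ℝ :=
  fun i => ∏ j ∈ Ico 1 (e i), (1 - (j : ℝ) / ((k : ℝ) + 1))

/-- the region -/
noncomputable def Reg (e : Fin m → ℕ) : Set (Fin m → ℝ) :=
  convexHull ℝ (insert (1 : Fin m → ℝ) (Set.range (sv e)))

theorem sv_mem {e : Fin m → ℕ} (he : ∀ i, 0 < e i) (k N : ℕ) (hN : ∀ i, e i ≤ N) :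
    sv e k ∈ convexHull ℝ {x : Fin m → ℝ | ∃ G : SimpleGraph (Fin N), x = dens e G} := by
  have hcomb : sv e k = ∑ f : Fin N → Fin (k + 1), (1 / ((k + 1 : ℕ) : ℝ) ^ N) • dens e (multi f) := by
    ext i
    rw [Finset.sum_apply]
    simp only [Pi.smul_apply, smul_eq_mul]
    rw [← mul_sum]
    unfold dens
    rw [← sum_div, ← Nat.cast_sum, sum_cliques]
    have hc : ((N.choose (e i) : ℕ) : ℝ) ≠ 0 := by
      have := Nat.choose_pos (hN i)
      positivity
    have hk : (((k + 1 : ℕ) : ℝ)) ≠ 0 := by positivity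
    have h1 := desc_ratio (k + 1) (e i) (by omega) (he i)
    have h2 : sv e k i = ((((k + 1).descFactorial (e i) : ℕ)) : ℝ) / ((k + 1 : ℕ) : ℝ) ^ (e i) := by
      rw [h1]
      unfold sv
      push_cast
      rfl
    rw [h2]
    have h3 : ((k + 1 : ℕ) : ℝ) ^ N = ((k + 1 : ℕ) : ℝ) ^ (e i) * ((k + 1 : ℕ) : ℝ) ^ (N - e i) := by
      rw [← pow_add]
      congr 1
      have := hN i
      omega
    rw [h3]
    push_cast at hk ⊢
    field_simp
  rw [hcomb]
  apply (convex_convexHull ℝ _).sum_mem
  · intro f _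
    positivity
  · rw [sum_const, card_univ, Fintype.card_fun, Fintype.card_fin, Fintype.card_fin, nsmul_eq_mul]
    push_cast
    have : ((k : ℝ) + 1) ^ N ≠ 0 := by positivity
    field_simp
  · intro f _
    exact subset_convexHull ℝ _ ⟨_, rfl⟩

theorem one_mem {e : Fin m → ℕ} (N : ℕ) (hN : ∀ i, e i ≤ N) :
    (1 : Fin m → ℝ) ∈ convexHull ℝ {x : Fin m → ℝ | ∃ G : SimpleGraph (Fin N), x = dens e G} := by
  apply subset_convexHull ℝ _
  refine ⟨⊤, ?_⟩
  ext i
  unfold dens
  have hq : ∀ s : Finset (Finset (Fin N)), (∀ Q, Q ∈ s ↔ Q.card = e i) →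
      s.card = N.choose (e i) := by
    intro s hs
    have : s = powersetCard (e i) univ := by
      ext Q
      rw [hs, mem_powersetCard]
      exact ⟨fun h => ⟨subset_univ _, h⟩, fun h => h.2⟩
    rw [this, card_powersetCard, card_univ, Fintype.card_fin]
  rw [hq _ (fun Q => ?_), Pi.one_apply, div_self]
  · have := Nat.choose_pos (hN i)
    positivity
  · rw [mem_cl]
    exact ⟨fun h => h.2, fun h => ⟨fun a _ b _ hab => hab, h⟩⟩

theorem tendsto_sv (e : Fin m → ℕ) :
    Filter.Tendsto (sv e) Filter.atTop (nhds (1 : Fin m → ℝ)) := by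
  rw [tendsto_pi_nhds]
  intro i
  unfold sv
  have : ((1 : Fin m → ℝ) i) = ∏ j ∈ Ico 1 (e i), (1 - (0 : ℝ)) := by simp
  rw [this]
  apply tendsto_finsetProd
  intro j _
  apply Filter.Tendsto.sub tendsto_const_nhds
  have h1 : Filter.Tendsto (fun n : ℕ => ((n : ℝ) + 1)) Filter.atTop Filter.atTop :=
    Filter.tendsto_atTop_add_const_right _ _ tendsto_natCast_atTop_atTop
  exact h1.const_div_atTop (j : ℝ)

theorem reg_closed (e : Fin m → ℕ) : IsClosed (Reg e) :=
  (isCompact_convexHull (tendsto_sv e).isCompact_insert_range).isClosed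

/-- the homomorphism densities of the cliques in a graph -/
noncomputable def hdens (e : Fin m → ℕ) {N : ℕ} (G : SimpleGraph (Fin N)) : Fin m → ℝ :=
  fun i => ((e i).factorial : ℝ) * ((G.cliqueFinset (e i)).card : ℝ) / (N : ℝ) ^ (e i)

theorem phi_uniform (e : Fin m → ℕ) (c : Fin m → ℝ) {N : ℕ} (G : SimpleGraph (Fin N)) :
    Phi G (fun j => ∑ i, if e i = j then c i * ((e i).factorial : ℝ) else 0)
      (fun _ => 1 / (N : ℝ)) = ∑ i, c i * hdens e G i := by
  unfold Phi hdens
  have h1 : ∀ Q ∈ cl G,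
      (∑ i, if e i = Q.card then c i * ((e i).factorial : ℝ) else 0) *
        ∏ _v ∈ Q, (1 / (N : ℝ)) =
      ∑ i, if Q.card = e i then c i * ((e i).factorial : ℝ) / (N : ℝ) ^ (e i) else 0 := by
    intro Q _
    rw [prod_const, sum_mul]
    apply sum_congr rfl
    intro i _
    by_cases h : e i = Q.card
    · rw [if_pos h, if_pos h.symm, ← h, one_div, inv_pow]
      rfl
    · rw [if_neg h, if_neg (fun h' => h h'.symm), zero_mul]
  refine (sum_congr rfl h1).trans ?_
  rw [sum_comm]
  apply sum_congr rfl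
  intro i _
  rw [← sum_filter, sum_const, nsmul_eq_mul]
  have : (cl G).filter (fun Q : Finset (Fin N) => Q.card = e i) = G.cliqueFinset (e i) := by
    ext Q
    rw [mem_cl, mem_filter, mem_clq]
  rw [this]
  ring

theorem rhs_eq (e : Fin m → ℕ) (he : ∀ i, 0 < e i) (c : Fin m → ℝ) (k : ℕ) :
    ∑ j ∈ range (k + 1 + 1), ((k + 1).choose j : ℝ) *
      ((∑ i, if e i = j then c i * ((e i).factorial : ℝ) else 0) * (1 / ((k + 1 : ℕ) : ℝ)) ^ j) =
      ∑ i, c i * sv e k i := by
  have h1 : ∀ j ∈ range (k + 1 + 1), ((k + 1).choose j : ℝ) *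
      ((∑ i, if e i = j then c i * ((e i).factorial : ℝ) else 0) * (1 / ((k + 1 : ℕ) : ℝ)) ^ j) =
      ∑ i, if e i = j then c i * (((k + 1).choose (e i) : ℝ) * ((e i).factorial : ℝ) *
        (1 / ((k + 1 : ℕ) : ℝ)) ^ (e i)) else 0 := by
    intro j _
    rw [sum_mul, mul_sum]
    apply sum_congr rfl
    intro i _
    by_cases h : e i = j
    · rw [if_pos h, if_pos h, h]
      ring
    · rw [if_neg h, if_neg h]
      ring
  rw [sum_congr rfl h1, sum_comm]
  apply sum_congr rfl
  intro i _
  rw [sum_ite_eq]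
  have h2 : sv e k i = (((k + 1).choose (e i) : ℝ) * ((e i).factorial : ℝ) *
        (1 / ((k + 1 : ℕ) : ℝ)) ^ (e i)) := by
    have h1 := desc_ratio (k + 1) (e i) (by omega) (he i)
    have h2 : sv e k i = ((((k + 1).descFactorial (e i) : ℕ)) : ℝ) / ((k + 1 : ℕ) : ℝ) ^ (e i) := by
      rw [h1]
      unfold sv
      push_cast
      rfl
    rw [h2, Nat.descFactorial_eq_factorial_mul_choose]
    push_cast
    rw [one_div, inv_pow]
    ring
  rw [h2]
  split_ifs with h
  · rfl
  · rw [mem_range, not_lt] at h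
    rw [Nat.choose_eq_zero_of_lt (by omega)]
    simp

/-- the homomorphism density vector of a graph lies in the region -/
theorem hdens_mem {e : Fin m → ℕ} (he : ∀ i, 0 < e i) {N : ℕ} (hN : 1 ≤ N)
    (G : SimpleGraph (Fin N)) : hdens e G ∈ Reg e := by
  by_contra hcon
  obtain ⟨f, u, h1, h2⟩ := geometric_hahn_banach_closed_point (convex_convexHull ℝ _)
    (reg_closed e) hcon
  set c : Fin m → ℝ := fun i => f (Pi.single i 1) with hc
  have hf : ∀ x : Fin m → ℝ, f x = ∑ i, c i * x i := by
    intro x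
    conv_lhs => rw [← Finset.univ_sum_single x]
    rw [map_sum]
    apply sum_congr rfl
    intro i _
    have : (Pi.single i (x i) : Fin m → ℝ) = x i • (Pi.single i 1 : Fin m → ℝ) := by
      rw [← Pi.single_smul, smul_eq_mul, mul_one]
    rw [this, map_smul, smul_eq_mul, hc]
    ring
  have hx : (fun _ : Fin N => 1 / (N : ℝ)) ∈ stdSimplex ℝ (Fin N) := by
    refine ⟨fun _ => by positivity, ?_⟩
    rw [sum_const, card_univ, Fintype.card_fin, nsmul_eq_mul]
    have : (N : ℝ) ≠ 0 := by positivity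
    field_simp
  obtain ⟨k, hk, h3⟩ := phi_le G (fun j => ∑ i, if e i = j then c i * ((e i).factorial : ℝ) else 0)
    (fun _ => 1 / (N : ℝ)) hx
  obtain ⟨k, rfl⟩ : ∃ k', k = k' + 1 := ⟨k - 1, by omega⟩
  rw [phi_uniform, rhs_eq e he, ← hf, ← hf] at h3
  have h4 := h1 (sv e k) (subset_convexHull ℝ _ (Set.mem_insert_of_mem _ ⟨k, rfl⟩))
  linarith

theorem main (e : Fin m → ℕ) (he : ∀ i, 0 < e i) :
      (⋂ n : ℕ, convexHull ℝ
          { x : Fin m → ℝ | ∃ G : SimpleGraph (Fin (n + ∑ i, e i)),
              x = fun i => ((G.cliqueFinset (e i)).card : ℝ) /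
                ((Nat.choose (n + ∑ i, e i) (e i) : ℕ) : ℝ) })
        = convexHull ℝ (insert (1 : Fin m → ℝ)
            (Set.range fun k : ℕ => fun i : Fin m =>
              ∏ j ∈ Finset.Ico 1 (e i), (1 - (j : ℝ) / ((k : ℝ) + 1)))) := by
  have hle : ∀ (n : ℕ) (i : Fin m), e i ≤ n + ∑ i, e i := by
    intro n i
    have := single_le_sum (f := e) (fun _ _ => Nat.zero_le _) (mem_univ i)
    omega
  apply Set.Subset.antisymm
  · intro x hx
    rw [Set.mem_iInter] at hx
    show x ∈ Reg e
    -- scaling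
    set r : ℕ → Fin m → ℝ := fun n i =>
      (((n + ∑ i, e i).descFactorial (e i) : ℕ) : ℝ) / ((n + ∑ i, e i : ℕ) : ℝ) ^ (e i) with hr
    have hmem : ∀ n : ℕ, 1 ≤ n → (fun i => r n i * x i) ∈ Reg e := by
      intro n hn
      set L : (Fin m → ℝ) →ₗ[ℝ] (Fin m → ℝ) :=
        { toFun := fun y i => r n i * y i
          map_add' := by intro y z; ext i; simp only [Pi.add_apply]; ring
          map_smul' := by intro a y; ext i; simp only [Pi.smul_apply, smul_eq_mul, RingHom.id_apply]; ring }
        with hL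
      have h1 : L x ∈ L '' (convexHull ℝ
          { x : Fin m → ℝ | ∃ G : SimpleGraph (Fin (n + ∑ i, e i)),
              x = fun i => ((G.cliqueFinset (e i)).card : ℝ) /
                ((Nat.choose (n + ∑ i, e i) (e i) : ℕ) : ℝ) }) := ⟨x, hx n, rfl⟩
      rw [L.image_convexHull] at h1
      have h2 : convexHull ℝ (L '' { x : Fin m → ℝ | ∃ G : SimpleGraph (Fin (n + ∑ i, e i)),
              x = fun i => ((G.cliqueFinset (e i)).card : ℝ) /
                ((Nat.choose (n + ∑ i, e i) (e i) : ℕ) : ℝ) }) ⊆ Reg e := by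
        apply convexHull_min _ (convex_convexHull ℝ _)
        rintro _ ⟨y, ⟨G, rfl⟩, rfl⟩
        have h3 := hdens_mem (m := m) he (N := n + ∑ i, e i) (by omega) G
        have h4 : hdens e G = L (fun i => ((G.cliqueFinset (e i)).card : ℝ) /
                ((Nat.choose (n + ∑ i, e i) (e i) : ℕ) : ℝ)) := by
          ext i
          show ((e i).factorial : ℝ) * ((G.cliqueFinset (e i)).card : ℝ) /
            (((n + ∑ i, e i : ℕ) : ℝ)) ^ (e i) = r n i * (((G.cliqueFinset (e i)).card : ℝ) /
                ((Nat.choose (n + ∑ i, e i) (e i) : ℕ) : ℝ))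
          simp only [hr]
          rw [Nat.descFactorial_eq_factorial_mul_choose]
          have h5 : ((Nat.choose (n + ∑ i, e i) (e i) : ℕ) : ℝ) ≠ 0 := by
            have := Nat.choose_pos (hle n i)
            positivity
          have h6 : (((n + ∑ i, e i : ℕ) : ℝ)) ≠ 0 := by
            have : 0 < n + ∑ i, e i := by omega
            positivity
          rw [Nat.cast_mul]
          field_simp
        rw [← h4]
        exact h3
      exact h2 h1
    have hlim : Filter.Tendsto (fun n : ℕ => (fun i => r n i * x i)) Filter.atTop (nhds x) := by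
      rw [tendsto_pi_nhds]
      intro i
      have h1 : Filter.Tendsto (fun n : ℕ => r n i) Filter.atTop (nhds 1) := by
        have h2 : ∀ᶠ n : ℕ in Filter.atTop,
            ∏ j ∈ Ico 1 (e i), (1 - (j : ℝ) / ((n + ∑ i, e i : ℕ) : ℝ)) = r n i := by
          filter_upwards [Filter.eventually_ge_atTop 1] with n hn
          rw [hr]
          exact (desc_ratio _ _ (by omega) (he i)).symm
        refine Filter.Tendsto.congr' h2 ?_
        have h3 : Filter.Tendsto (fun n : ℕ => ∏ j ∈ Ico 1 (e i),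
            (1 - (j : ℝ) / ((n + ∑ i, e i : ℕ) : ℝ))) Filter.atTop
            (nhds (∏ j ∈ Ico 1 (e i), (1 - (0 : ℝ)))) := by
          apply tendsto_finsetProd
          intro j _
          apply Filter.Tendsto.sub tendsto_const_nhds
          have h4 : Filter.Tendsto (fun n : ℕ => ((n + ∑ i, e i : ℕ) : ℝ)) Filter.atTop
              Filter.atTop := by
            apply tendsto_natCast_atTop_atTop.comp
            exact Filter.tendsto_add_atTop_nat _
          exact h4.const_div_atTop (j : ℝ)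
        simpa using h3
      have h5 := h1.mul_const (x i)
      rwa [one_mul] at h5
    refine (reg_closed e).mem_of_tendsto hlim ?_
    filter_upwards [Filter.eventually_ge_atTop 1] with n hn
    exact hmem n hn
  · intro x hx
    rw [Set.mem_iInter]
    intro n
    refine (convexHull_min ?_ (convex_convexHull ℝ _)) hx
    intro y hy
    rcases hy with rfl | ⟨k, rfl⟩
    · exact one_mem (e := e) (n + ∑ i, e i) (hle n)
    · exact sv_mem he k (n + ∑ i, e i) (hle n)

end Pool.Agent.K35c.CD
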